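import Mathlib
import Pool.Agent.H.MP_7b70e8_gt.B

set_option autoImplicit false

namespace Pool.Agent.Results.MP_7b70e8_gt.CH

open Set Cardinal Pool.Agent.H.MP_9c4169_gt Pool.Agent.H.MP_f722f0_gt Pool.Agent.H.MP_7b70e8_gt

theorem result (ch : continuum = (aleph 1 : Cardinal.{0})) :
    ∃ X : Set ℝ, X.Nonempty ∧ Split (Om (Op X)) (Ta (Op X)) ∧ ¬ Split (Ta (Op X)) (Ga (Op X)) := by
  obtain ⟨Z, h1, -, h2, h3, -⟩ := H.MP_7b70e8_gt.key ch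
  exact ⟨Z, h1, h2, fun h => h3 (splc h)⟩

end Pool.Agent.Results.MP_7b70e8_gt.CH
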